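import Pool.Agent.Helper535.W

set_option autoImplicit false

namespace Pool.Agent.Results.MP_aa78bc_gt.DenseMetrizable

universe u

/-- `Z` is a Lindelöf Σ-space: `Z` is a continuous image of a Tychonoff space `P` which admits a
perfect map (continuous, closed, onto, with compact fibres) onto a separable metrizable space
`M`. -/
def LindelofSigma (Z : Type u) [TopologicalSpace Z] : Prop :=
  ∃ (P : Type u) (_ : TopologicalSpace P) (M : Type u) (_ : TopologicalSpace M),
    T35Space P ∧ TopologicalSpace.MetrizableSpace M ∧ TopologicalSpace.SeparableSpace M ∧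
    (∃ p : P → M, Continuous p ∧ IsClosedMap p ∧ Function.Surjective p ∧
      ∀ m, IsCompact (p ⁻¹' {m})) ∧
    ∃ q : P → Z, Continuous q ∧ Function.Surjective q

/-- `K` is Gul'ko compact: `K` is compact Hausdorff and the space of continuous real functions on
`K`, with the topology of pointwise convergence, is Lindelöf Σ. -/
def GulkoCompact (K : Type u) [TopologicalSpace K] : Prop :=
  CompactSpace K ∧ T2Space K ∧ LindelofSigma {g : K → ℝ // Continuous g}

/-- `X` is splittable over the class of Gul'ko compact spaces. -/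
def SplittableOverGulko (X : Type u) [TopologicalSpace X] : Prop :=
  ∀ A : Set X, ∃ (Y : Type u) (_ : TopologicalSpace Y), GulkoCompact Y ∧
    ∃ f : X → Y, Continuous f ∧ f ⁻¹' (f '' A) = A

/-- Every compact space splittable over Gul'ko compacta has a dense metrizable subspace. -/
theorem result :
    ∀ (X : Type u) [TopologicalSpace X] [CompactSpace X] [T2Space X],
      SplittableOverGulko X →
      ∃ D : Set X, Dense D ∧ TopologicalSpace.MetrizableSpace D := by
  intro X _ _ _ h
  have hX : Pool.Agent.Helper535.GSplit.{u, u} X := by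
    apply Pool.Agent.Helper535.gsplit_of
    intro A
    obtain ⟨Y, tY, ⟨hY1, hY2, P, tP, M, tM, -, hM1, hM2, ⟨p, hp1, hp2, -, hp3⟩, q, hq1, hq2⟩,
      f, hf, hfA⟩ := h A
    exact ⟨Y, tY, hY1, hY2, Pool.Agent.Helper535.usco_of_perfect p hp1 hp2 hp3 q hq1 hq2,
      f, hf, hfA⟩
  obtain ⟨E, _, _, _, hE⟩ := hX.gs
  exact hE.dense_metrizable

end Pool.Agent.Results.MP_aa78bc_gt.DenseMetrizable
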